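import Mathlib
import Pool.Agent.H.MP_27c522_an.A

set_option autoImplicit false

namespace Pool.Agent.Results.MP_27c522_an.Two

open Finset Filter Topology Pool.Agent.H.MP_27c522_an

/-- x times the derivative of a term, without sign -/
noncomputable def h (x : ℝ) (k : ℕ) : ℝ := (2 * k + 1) * (k * (k + 1)) * x ^ (k * (k + 1))

theorem der (x : ℝ) (hx : x ≠ 0) (k : ℕ) :
    HasDerivAt (fun y : ℝ => u k * y ^ (k * (k + 1))) ((-1) ^ k * h x k / x) x := by
  refine ((hasDerivAt_pow (k * (k + 1)) x).const_mul (u k)).congr_deriv ?_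
  rcases k with _ | k
  · simp [h]
  · rw [show (k + 1) * (k + 1 + 1) - 1 = k * k + 3 * k + 1 by
      rw [Nat.sub_eq_iff_eq_add (Nat.succ_le_of_lt (by positivity))]; ring]
    simp only [u, h]; push_cast; field_simp; ring

theorem bound {x b : ℝ} (h0 : 0 < x) (hb : x ≤ b) (b1 : b ≤ 1) (k : ℕ) :
    h x k ≤ 6 * (k ^ 3 * b ^ k) := by
  have e : x ^ (k * (k + 1)) ≤ b ^ k :=
    (pow_le_pow_left₀ h0.le hb _).trans (pow_le_pow_of_le_one (h0.le.trans hb) b1 (Nat.le_mul_of_pos_right k (Nat.succ_pos k)))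
  rcases k with _ | k
  · simp [h]
  · rw [h, ← mul_assoc 6]
    refine mul_le_mul ?_ e (by positivity) (by positivity)
    push_cast
    have : (0 : ℝ) ≤ 4 * k ^ 3 + 9 * k ^ 2 + 5 * k := by positivity
    linarith

theorem sumb {b : ℝ} (b0 : 0 < b) (b1 : b < 1) : Summable fun k : ℕ => 6 * ((k : ℝ) ^ 3 * b ^ k) := by
  have : Summable fun k : ℕ => (k : ℝ) ^ 3 * b ^ k :=
    summable_pow_mul_geometric_of_norm_lt_one 3 (r := b) (by rwa [Real.norm_of_nonneg b0.le])
  exact this.mul_left 6

theorem full {x : ℝ} (h0 : 0 < x) (h1 : x < 1) : ∑' k, (-1) ^ k * h x k / x ≤ 0 := by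
  have b0 : 0 < (x + 1) / 2 := by linarith
  have b1 : (x + 1) / 2 < 1 := by linarith
  have hm : x ∈ Set.Ioo (x / 2) ((x + 1) / 2) := ⟨by linarith, by linarith⟩
  have hd := hasDerivAt_tsum_of_isPreconnected (g := fun k (y : ℝ) => u k * y ^ (k * (k + 1)))
    (g' := fun k y => (-1) ^ k * h y k / y) (t := Set.Ioo (x / 2) ((x + 1) / 2)) (y₀ := x)
    ((sumb b0 b1).div_const (x / 2)) isOpen_Ioo isPreconnected_Ioo
    (fun k y hy => der y (by linarith [hy.1] : 0 < y).ne' k) (fun k y hy => by
      have y0 : 0 < y := by linarith [hy.1]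
      have : 0 ≤ h y k := by unfold h; positivity
      rw [norm_div, norm_mul, norm_pow, norm_neg, norm_one, one_pow, one_mul,
        Real.norm_of_nonneg this, Real.norm_of_nonneg y0.le]
      exact div_le_div₀ (by positivity) (bound y0 hy.2.le b1.le k) (by linarith) hy.1.le)
    hm (by
      rw [← summable_nat_add_iff 1]
      refine Summable.of_norm_bounded ((summable_nat_add_iff 1).2 (sumb h0 h1)) fun k => ?_
      refine le_trans ?_ (bound h0 le_rfl h1.le (k + 1))
      rw [norm_mul, u, norm_mul, norm_pow, norm_neg, norm_one, one_pow, one_mul,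
        Real.norm_of_nonneg (by positivity), Real.norm_of_nonneg (by positivity), h]
      have := Nat.cast_nonneg (α := ℝ) k
      gcongr
      refine le_mul_of_one_le_right (by positivity) ?_
      push_cast
      have : (0 : ℝ) ≤ k ^ 2 + 3 * k + 1 := by positivity
      linarith) hm
  have ha : AntitoneOn (fun y : ℝ => ∑' k, u k * y ^ (k * (k + 1))) (Set.Ioo 0 1) := by
    intro a ha b hb hab
    have := anti (a := a ^ 2) ⟨by have := ha.1; positivity, by nlinarith [ha.1, ha.2]⟩ (b := b ^ 2)
      ⟨by have := hb.1; positivity, by nlinarith [hb.1, hb.2]⟩ (pow_le_pow_left₀ ha.1.le hab 2)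
    simpa only [tp_sq] using this
  have := ha.derivWithin_nonpos (x := x)
  rwa [derivWithin_of_isOpen isOpen_Ioo ⟨h0, h1⟩, hd.deriv] at this

theorem step {x : ℝ} (h0 : 0 < x) (k : ℕ) (H : 1 ≤ x ∨ h x (k + 1) ≤ h x (k + 2)) :
    h x k < h x (k + 1) := by
  have e1 : x ^ ((k + 1) * (k + 1 + 1)) = x ^ (k * (k + 1)) * x ^ (2 * k + 2) := by ring
  have e2 : x ^ ((k + 2) * (k + 2 + 1)) = x ^ (k * (k + 1)) * x ^ (2 * k + 2) *
    (x ^ (2 * k + 2) * x ^ 2) := by ring
  have k0 := Nat.cast_nonneg (α := ℝ) k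
  have key : (2 * k + 1) * k < (2 * k + 3) * (k + 2) * x ^ (2 * k + 2) := by
    rcases le_or_gt 1 x with x1 | x1
    · have := one_le_pow₀ (n := 2 * k + 2) x1
      have := mul_le_mul_of_nonneg_left this (show 0 ≤ (2 * (k : ℝ) + 3) * (k + 2) by positivity)
      linarith
    have H := H.resolve_left x1.not_ge
    simp only [h, e1, e2] at H
    push_cast at H
    have p : 0 < x ^ (k * (k + 1)) * x ^ (2 * k + 2) * (k + 2) := by positivity
    have H' : (2 * k + 3) * (k + 1) ≤ (2 * k + 5) * (k + 3) * (x ^ (2 * k + 2) * x ^ 2) :=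
      le_of_mul_le_mul_left (by linarith) p
    have t0 : 0 < x ^ (2 * k + 2) := by positivity
    have x2 : x ^ 2 ≤ 1 := pow_le_one₀ h0.le x1.le
    set t := x ^ (2 * k + 2)
    have H2 : (2 * k + 3) * (k + 1) ≤ (2 * k + 5) * (k + 3) * t :=
      H'.trans (by gcongr; exact mul_le_of_le_one_right t0.le x2)
    have : 0 < (2 * (k : ℝ) + 5) * (k + 3) := by positivity
    refine lt_of_mul_lt_mul_left ?_ this.le
    have := mul_le_mul_of_nonneg_left H2 (show 0 ≤ (2 * (k : ℝ) + 3) * (k + 2) by positivity)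
    have : (0 : ℝ) < 12 * k ^ 2 + 36 * k + 18 := by positivity
    linarith
  simp only [h, e1]
  push_cast
  have p : 0 < x ^ (k * (k + 1)) * (k + 1) := by positivity
  linarith [mul_lt_mul_of_pos_left key p]

theorem neg {x : ℝ} (h0 : 0 < x) (m : ℕ) : ∑ k ∈ range (2 * m + 2), (-1) ^ k * h x k < 0 := by
  have sp : ∀ m, ∑ k ∈ range (2 * (m + 1) + 2), (-1) ^ k * h x k =
      ∑ k ∈ range (2 * m + 2), (-1) ^ k * h x k + (h x (2 * m + 2) - h x (2 * m + 3)) := by
    intro m
    rw [show 2 * (m + 1) + 2 = 2 * m + 2 + 1 + 1 by ring, sum_range_succ, sum_range_succ]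
    simp only [pow_succ, pow_mul]; ring
  by_cases H : 1 ≤ x ∨ h x (2 * m + 1 + 1) ≤ h x (2 * m + 1 + 2) 
  · have up : ∀ k, k ≤ 2 * m + 1 → h x k < h x (k + 1) := by
      intro k hk
      induction hk using Nat.decreasingInduction with
      | self => exact step h0 _ H
      | of_succ k _ ih => exact step h0 _ (Or.inr ih.le)
    have : ∀ j, j ≤ m → ∑ k ∈ range (2 * j + 2), (-1) ^ k * h x k < 0 := by
      intro j
      induction j with
      | zero => intro _; have := up 0 (by omega); simp [sum_range_succ] at *; linarith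
      | succ j ih =>
        intro hj
        rw [sp]
        have := up (2 * j + 2) (by omega)
        linarith [ih (by omega)]
    exact this m le_rfl
  · push Not at H
    obtain ⟨x1, H⟩ := H
    have dn : ∀ k, 2 * m + 2 ≤ k → h x (k + 1) < h x k := by
      intro k hk
      induction hk with
      | refl => exact H
      | step _ ih => exact lt_of_not_ge fun c => (step h0 _ (Or.inr c)).not_gt ih
    have mono : ∀ j, m + 1 ≤ j → ∑ k ∈ range (2 * (m + 1) + 2), (-1) ^ k * h x k ≤
        ∑ k ∈ range (2 * j + 2), (-1) ^ k * h x k := by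
      intro j hj
      induction hj with
      | refl => exact le_rfl
      | @step j hj ih =>
        rw [Nat.succ_eq_add_one, sp j]
        have := dn (2 * j + 2) (by have : m + 1 ≤ j := hj; omega)
        linarith
    have s : Summable fun k => (-1) ^ k * h x k := by
      refine Summable.of_norm_bounded (sumb h0 x1) fun k => ?_
      have : 0 ≤ h x k := by unfold h; positivity
      rw [norm_mul, norm_pow, norm_neg, norm_one, one_pow, one_mul, Real.norm_of_nonneg this]
      exact bound h0 le_rfl x1.le k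
    have t := s.hasSum.tendsto_sum_nat.comp (show Tendsto (fun j : ℕ => 2 * j + 2) atTop atTop from
      tendsto_atTop_mono (fun j => by simp only [id]; omega) tendsto_id)
    have l := ge_of_tendsto t ((eventually_ge_atTop (m + 1)).mono mono)
    have f := full h0 x1
    rw [tsum_div_const, div_nonpos_iff] at f
    have f' := (f.resolve_left fun c => h0.not_ge c.2).1
    rw [sp] at l
    linarith [dn (2 * m + 2) le_rfl]

theorem result : ∀ n : ℕ, Odd n → 3 ≤ n →
    {x : ℝ | ∑ k ∈ range (n + 1), (-1) ^ k * (2 * k + 1) * x ^ (k * (k + 1)) = 0}.ncard = 2 := by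
  rintro n ⟨m, rfl⟩ -
  set p : ℝ → ℝ := fun x => ∑ k ∈ range (2 * m + 1 + 1), u k * x ^ (k * (k + 1)) with hp
  change {x : ℝ | p x = 0}.ncard = 2
  have pc : Continuous p := by rw [hp]; fun_prop
  have sa : StrictAntiOn p (Set.Ici 0) := by
    refine strictAntiOn_of_deriv_neg (convex_Ici 0) pc.continuousOn fun x hx => ?_
    rw [interior_Ici] at hx
    rw [(HasDerivAt.fun_sum fun k _ => der x (ne_of_gt hx) k).deriv, ← sum_div]
    exact div_neg_of_neg_of_pos (neg hx m) hx
  have p0 : p 0 = 1 := by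
    simp only [hp]; rw [sum_range_succ']; simp [u]
  have p1 : p 1 = -(2 * m + 2) := by
    simp only [hp, one_pow, mul_one]
    clear * -
    induction m with
    | zero => simp [sum_range_succ, u]
    | succ m ih =>
      rw [show 2 * (m + 1) + 1 + 1 = 2 * m + 1 + 1 + 1 + 1 by ring, sum_range_succ,
        sum_range_succ _ (2 * m + 1 + 1), ih]
      simp only [u, pow_succ, pow_mul]; push_cast; ring
  have ev : ∀ x, p (-x) = p x := fun x =>
    sum_congr rfl fun k _ => by rw [(Nat.even_mul_succ_self k).neg_pow]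
  obtain ⟨r, ⟨r0, -⟩, hr⟩ : (0 : ℝ) ∈ p '' Set.Icc 0 1 := intermediate_value_Icc' zero_le_one
    pc.continuousOn ⟨by rw [p1]; have := Nat.cast_nonneg (α := ℝ) m; linarith, by rw [p0]; norm_num⟩
  have rn : r ≠ 0 := by rintro rfl; rw [p0] at hr; norm_num at hr
  rw [Set.ncard_eq_two]
  refine ⟨r, -r, fun e => rn (by linarith), ?_⟩
  ext x
  simp only [Set.mem_ofPred_eq, Set.mem_insert_iff, Set.mem_singleton_iff]
  constructor
  · intro hx
    rcases le_total 0 x with a | a
    · exact Or.inl (sa.injOn a r0 (hx.trans hr.symm))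
    · have := sa.injOn (show -x ∈ Set.Ici 0 from neg_nonneg.2 a) r0 ((ev x).trans (hx.trans hr.symm))
      exact Or.inr (by linarith)
  · rintro (rfl | rfl)
    · exact hr
    · exact (ev r).trans hr

end Pool.Agent.Results.MP_27c522_an.Two
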